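import Pool.Agent.H.MP_b9f959_al.A

set_option autoImplicit false

namespace Pool.Agent.H.MP_3f2ebd_al

open Subgroup Pool.Agent.H.MP_a1472e_al Pool.Agent.H.MP_b9f959_al
open scoped commutatorElement

universe u
variable {G : Type u} [Group G]

abbrev Zc (G : Type u) [Group G] (n : ℕ) : Subgroup G := Subgroup.upperCentralSeries G n

abbrev Lc (G : Type u) [Group G] (n : ℕ) : Subgroup G := (⊤ : Subgroup G).lowerCentralSeries n

theorem zc_succ {s : ℕ} {v : G} : v ∈ Zc G (s + 1) ↔ ∀ h, cm h v ∈ Zc G s := by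
  rw [← inv_mem_iff, Subgroup.mem_upperCentralSeries_succ_iff]
  exact ⟨fun h g => by simpa [commutatorElement_def, cm] using h g⁻¹,
    fun h g => by simpa [commutatorElement_def, cm] using h g⁻¹⟩

theorem qnil (V : Subgroup G) [hV : V.Normal] (h1 : V ≤ ⁅(⊤ : Subgroup G), (⊤ : Subgroup G)⁆)
    (h2 : ⁅V, ⁅(⊤ : Subgroup G), (⊤ : Subgroup G)⁆⁆ = ⊥) {F : Set G} (hF : F.Finite)
    (h3 : ∀ v, (∀ f ∈ F, cm f v = 1) → ∀ h, cm h v = 1)
    (h4 : ∀ h : G, ∃ r, ∀ g, (cm h)^[r] g = 1) : ∃ s, V ≤ Zc G s := by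
  have cV : ∀ h, ∀ v ∈ V, cm h v ∈ V := fun h v hv => cm_mem (le_normalizer_of_normal (K := ⊤) trivial) hv
  have c0 : ∀ p ∈ V, ∀ q ∈ ⁅(⊤ : Subgroup G), (⊤ : Subgroup G)⁆, q * p = p * q := fun p hp q hq =>
    commutator_eq_bot_iff_le_centralizer.1 h2 hp q hq
  have cc : ∀ g h, ∀ v ∈ V, cm g (cm h v) = cm h (cm g v) := fun g h v hv => by
    have a := hV.conj_mem' v hv h
    have b := hV.conj_mem' v hv g
    have e1 := c0 _ (hV.conj_mem' v hv (g * h)) _
      (commutator_mem_commutator (mem_top h⁻¹) (mem_top g⁻¹))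
    have e2 := c0 _ (inv_mem a) _ (h1 (mul_mem hv (inv_mem b)))
    have e3 := c0 _ hv _ (h1 (inv_mem b))
    calc cm g (cm h v) = (h⁻¹ * v * h)⁻¹ * (v * (g⁻¹ * v * g)⁻¹) * (⁅h⁻¹, g⁻¹⁆⁻¹ *
          (((g * h)⁻¹ * v * (g * h)) * ⁅h⁻¹, g⁻¹⁆)) := by
          simp only [cm, commutatorElement_def]; group
      _ = _ := by rw [← e1, ← e2, ← e3]; simp only [cm, commutatorElement_def]; group
  have c1 : ∀ g : G, cm g 1 = 1 := fun g => by simp [cm]
  have key : ∀ F' : Set G, F'.Finite → ∃ s, ∀ v ∈ V, (∀ f ∈ F, f ∉ F' → cm f v = 1) →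
      v ∈ Zc G s := by
    intro F' hF'
    induction F', hF' using Set.Finite.induction_on with
    | empty => exact ⟨1, fun v _ h => zc_succ.2 fun g => by
        rw [h3 v (fun f hf => h f hf (by simp)) g]; exact one_mem _⟩
    | @insert f F' _ _ ih =>
      obtain ⟨s, hs⟩ := ih
      have pr : ∀ h, ∀ v ∈ V, (∀ g ∈ F, g ∉ insert f F' → cm g v = 1) →
          ∀ g ∈ F, g ∉ insert f F' → cm g (cm h v) = 1 := fun h v hv e g g1 g2 => by
        rw [cc g h v hv, e g g1 g2, c1]
      have sub : ∀ t, ∀ v ∈ V, (∀ g ∈ F, g ∉ insert f F' → cm g v = 1) → cm f v ∈ Zc G t →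
          v ∈ Zc G (s + t) := by
        intro t
        induction t with
        | zero =>
          refine fun v hv e h => hs v hv fun g g1 g2 => ?_
          by_cases e' : g = f
          · rw [e']; simpa using h
          · exact e g g1 (by simp [e', g2])
        | succ t ih =>
          refine fun v hv e h => zc_succ.2 fun g => ih _ (cV g v hv) (pr g v hv e) ?_
          rw [cc f g v hv]
          exact zc_succ.1 h g
      have : ∀ j, ∃ s', ∀ v ∈ V, (∀ g ∈ F, g ∉ insert f F' → cm g v = 1) → (cm f)^[j] v = 1 →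
          v ∈ Zc G s' := by
        intro j
        induction j with
        | zero => exact ⟨0, fun v _ _ h => by rw [show v = 1 from h]; exact one_mem _⟩
        | succ j ih =>
          obtain ⟨s', hs'⟩ := ih
          exact ⟨s + s', fun v hv e h => sub s' v hv e (hs' _ (cV f v hv) (pr f v hv e) h)⟩
      obtain ⟨r, hr⟩ := h4 f
      obtain ⟨s', hs'⟩ := this r
      exact ⟨s', fun v hv e => hs' v hv e (hr v)⟩
  obtain ⟨s, hs⟩ := key F hF
  exact ⟨s, fun v hv => hs v hv fun f h h' => absurd h h'⟩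

theorem zt (j : ℕ) : ⁅Zc G (j + 1), ⊤⁆ ≤ Zc G j :=
  commutator_le.2 fun _ h y _ => Subgroup.mem_upperCentralSeries_succ_iff.1 h y

theorem l1 (i : ℕ) : ∀ j, ⁅Zc G (i + j + 1), Lc G i⁆ ≤ Zc G j := by
  induction i with
  | zero => intro j; rw [zero_add]; exact zt j
  | succ i ih =>
    intro j
    refine (commutator_comm_le _ _).trans (three _ _ _ _ ?_ ?_)
    · refine (commutator_mono ((commutator_comm_le _ _).trans ?_) le_rfl).trans (ih j)
      rw [show i + 1 + j = i + j + 1 by omega]; exact zt _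
    · refine (commutator_mono ?_ le_rfl).trans (zt j)
      rw [show i + 1 + j = i + (j + 1) by omega]; exact ih (j + 1)

theorem l2 {P Q : Subgroup G} (i : ℕ) : ∀ j, ⁅Q, P⁆ ≤ Zc G (i + j) →
    ⁅Q, P.lowerCentralSeries i⁆ ≤ Zc G j := by
  induction i with
  | zero => intro j h; rwa [zero_add] at h
  | succ i ih =>
    intro j h
    refine (commutator_comm_le _ _).trans (three _ _ _ _ ?_ ?_)
    · refine (commutator_mono ((commutator_comm_le _ _).trans ?_)
        (lowerCentralSeries_mono i le_top)).trans (l1 i j)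
      rwa [show i + 1 + j = i + j + 1 by omega] at h
    · refine (commutator_mono (ih (j + 1) ?_) le_top).trans (zt j)
      rwa [show i + 1 + j = i + (j + 1) by omega] at h

theorem bryant {P : Subgroup G} {m : ℕ} (h : ∀ i ≤ m,
    centralizer (P.lowerCentralSeries i : Set G) = centralizer (Lc G i : Set G)) (k : ℕ) :
    k ≤ m → ∀ Q, ⁅Q, P⁆ ≤ Zc G k → Q ≤ Zc G (k + 1) := by
  induction k using Nat.strong_induction_on with
  | _ k ih =>
  intro hk Q hQ
  have : ∀ j i, i + j = k → ⁅Q, Lc G i⁆ ≤ Zc G j := by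
    intro j
    induction j with
    | zero =>
      intro i e
      have := l2 (P := P) (Q := Q) i 0 (e ▸ hQ)
      rw [show Zc G 0 = ⊥ from rfl, le_bot_iff, commutator_eq_bot_iff_le_centralizer] at this ⊢
      rwa [← h i (by omega)]
    | succ j ih' =>
      intro i e
      refine ih j (by omega) (by omega) _ (three _ _ _ _ ?_ ?_)
      · exact (commutator_mono (commutator_mono le_rfl le_top) le_rfl).trans
          ((commutator_comm_le _ _).trans (ih' (i + 1) (by omega)))
      · refine (commutator_mono ((commutator_comm_le _ _).trans ?_) le_rfl).trans (l1 i j)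
        rwa [show i + j + 1 = k by omega]
  exact fun g hg => Subgroup.mem_upperCentralSeries_succ_iff.2 fun y =>
    this k 0 (zero_add k) (commutator_mem_commutator hg (mem_top y))

def FC (G : Type u) [Group G] : Prop :=
  ∀ X : Set G, ∃ F : Set G, F.Finite ∧ F ⊆ X ∧ centralizer X = centralizer F

theorem FC.sub (h : FC G) (S : Subgroup G) : FC S := fun X => by
  obtain ⟨F, f1, f2, f3⟩ := h (S.subtype '' X)
  have : S.subtype ⁻¹' F ⊆ X := fun x hx => by
    obtain ⟨y, hy, e⟩ := f2 hx
    rwa [← S.subtype_injective e]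
  refine ⟨S.subtype ⁻¹' F, f1.preimage S.subtype_injective.injOn, this,
    le_antisymm (centralizer_le this) fun g hg x hx => Subtype.ext ?_⟩
  refine f3.ge (fun a ha => ?_ : (g : G) ∈ centralizer F) x ⟨x, hx, rfl⟩
  obtain ⟨y, -, rfl⟩ := f2 ha
  exact congrArg Subtype.val (hg y ha)

theorem lc_fin (i : ℕ) : ∀ x ∈ Lc G i, ∃ F : Set G, F.Finite ∧
    x ∈ (closure F).lowerCentralSeries i := by
  induction i with
  | zero => exact fun x _ => ⟨{x}, Set.finite_singleton x, subset_closure rfl⟩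
  | succ i ih =>
    intro x hx
    have m : ∀ {F F' : Set G} (j), F ⊆ F' → (closure F).lowerCentralSeries j ≤
      (closure F').lowerCentralSeries j := fun j e => lowerCentralSeries_mono j (closure_mono e)
    induction hx using closure_induction with
    | mem x hx =>
      obtain ⟨p, hp, q, -, rfl⟩ := hx
      obtain ⟨F, f1, f2⟩ := ih p hp
      exact ⟨insert q F, f1.insert q, commutator_mem_commutator (m i (Set.subset_insert _ _) f2)
        (subset_closure (Set.mem_insert _ _))⟩
    | one => exact ⟨∅, Set.finite_empty, one_mem _⟩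
    | mul x y _ _ hx hy =>
      obtain ⟨F, f1, f2⟩ := hx
      obtain ⟨F', f1', f2'⟩ := hy
      exact ⟨F ∪ F', f1.union f1', mul_mem (m _ Set.subset_union_left f2)
        (m _ Set.subset_union_right f2')⟩
    | inv x _ hx =>
      obtain ⟨F, f1, f2⟩ := hx
      exact ⟨F, f1, inv_mem f2⟩

theorem FC.exP (h : FC G) (m : ℕ) : ∃ F : Set G, F.Finite ∧ ∀ i ≤ m,
    centralizer ((closure F).lowerCentralSeries i : Set G) = centralizer (Lc G i : Set G) := by
  choose X x1 x2 x3 using fun i => h (Lc G i : Set G)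
  choose! f f1 f2 using lc_fin (G := G)
  refine ⟨⋃ i ∈ Set.Iic m, ⋃ x ∈ X i, f i x, (Set.finite_Iic m).biUnion fun i _ =>
    (x1 i).biUnion fun x hx => f1 i x (x2 i hx), fun i hi => le_antisymm ?_
      (centralizer_le (by exact lowerCentralSeries_mono i le_top))⟩
  rw [x3]
  refine centralizer_le fun x hx => lowerCentralSeries_mono i (closure_mono ?_) (f2 i x (x2 i hx))
  exact (Set.subset_biUnion_of_mem (u := f i) hx).trans
    (Set.subset_biUnion_of_mem (u := fun i => ⋃ x ∈ X i, f i x) hi)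

theorem map_cm {G' : Type u} [Group G'] (f : G →* G') (h g : G) (r : ℕ) :
    f ((cm h)^[r] g) = (cm (f h))^[r] (f g) := by
  induction r with
  | zero => rfl
  | succ r ih => simp only [Function.iterate_succ_apply', ← ih, cm, map_mul, map_inv]

theorem dw_step (fc : FC G) (hn : Nil ⁅(⊤ : Subgroup G), (⊤ : Subgroup G)⁆)
    (he : ∀ h : G, ∃ r, ∀ g, (cm h)^[r] g = 1) : Nil (⊤ : Subgroup G) := by
  obtain ⟨c, hc⟩ := hn
  set N := ⁅(⊤ : Subgroup G), (⊤ : Subgroup G)⁆ with hN
  have : ∀ k j, j + k = c → ∃ m, N.lowerCentralSeries j ≤ Zc G m := by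
    intro k
    induction k with
    | zero => intro j e; exact ⟨0, by rw [show j = c from e, hc]; exact bot_le⟩
    | succ k ih =>
      intro j e
      obtain ⟨m, hm⟩ := ih (j + 1) (by omega)
      obtain ⟨F, f1, f2⟩ := fc.exP m
      let π := QuotientGroup.mk' (Zc G m)
      have sj : Function.Surjective π := QuotientGroup.mk'_surjective _
      have key : ∀ K : Subgroup G, K ≤ Zc G m ↔ K.map π = ⊥ := fun K => by
        rw [Subgroup.map_eq_bot_iff, QuotientGroup.ker_mk']
      have tp : N.map π = ⁅(⊤ : Subgroup (G ⧸ Zc G m)), (⊤ : Subgroup (G ⧸ Zc G m))⁆ := by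
        rw [hN, map_commutator, map_top_of_surjective _ sj]
      have : ((N.lowerCentralSeries j).map π).Normal := Normal.map inferInstance π sj
      have a1 : ∀ v, (∀ f ∈ π '' F, cm f v = 1) → ∀ h, cm h v = 1 := fun v hv h => by
        obtain ⟨v, rfl⟩ := sj v
        obtain ⟨h, rfl⟩ := sj h
        have := bryant f2 m le_rfl (zpowers v) (by
          rw [key, map_commutator, commutator_eq_bot_iff_le_centralizer, MonoidHom.map_zpowers,
            zpowers_le, MonoidHom.map_closure, centralizer_closure]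
          intro f hf
          have := hv f hf
          simp only [cm] at this
          calc f * π v = π v * f * ((π v)⁻¹ * f⁻¹ * π v * f)⁻¹ := by group
            _ = _ := by rw [this]; group)
        have := (QuotientGroup.eq_one_iff _).2 (zc_succ.1 (this (mem_zpowers v)) h)
        exact (map_cm π h v 1).symm.trans this
      have a2 : ∀ h : G ⧸ Zc G m, ∃ r, ∀ g, (cm h)^[r] g = 1 := fun h => by
        obtain ⟨h, rfl⟩ := sj h
        obtain ⟨r, hr⟩ := he h
        refine ⟨r, fun g => ?_⟩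
        obtain ⟨g, rfl⟩ := sj g
        rw [← map_cm, hr, map_one]
      obtain ⟨s, hs⟩ := qnil ((N.lowerCentralSeries j).map π)
        (tp ▸ map_mono (lowerCentralSeries_le_self _ _))
        (by rw [← tp, ← map_commutator, ← key]; exact hm) (f1.image π) a1 a2
      · refine ⟨m + s, fun g hg => ?_⟩
        have : ∀ s g, π g ∈ Zc _ s → g ∈ Zc G (m + s) := by
          intro s
          induction s with
          | zero => exact fun g h => (QuotientGroup.eq_one_iff g).1 (mem_bot.1 h)
          | succ s ih => exact fun g h => zc_succ.2 fun y => ih _ (by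
              simpa only [cm, map_mul, map_inv] using zc_succ.1 h (π y))
        exact this s g (hs (mem_map_of_mem π hg))
  obtain ⟨m, hm⟩ := this c 0 (zero_add c)
  refine (Subgroup.isNilpotent_iff_lowerCentralSeries _).1 (Group.isNilpotent_top.2 ⟨m + 1, ?_⟩)
  exact eq_top_iff.2 fun g _ => Subgroup.mem_upperCentralSeries_succ_iff.2 fun y =>
    hm (commutator_mem_commutator (mem_top g) (mem_top y))

theorem nil_of_map {G' : Type u} [Group G'] {H : Subgroup G} {f : G →* G'}
    (hf : Function.Injective f) (h : Nil (H.map f)) : Nil H := by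
  obtain ⟨c, hc⟩ := h
  exact ⟨c, by rwa [← map_lowerCentralSeries, map_eq_bot_iff_of_injective _ hf] at hc⟩

theorem nil_top {S : Subgroup G} (h : Nil (⊤ : Subgroup S)) : Nil S := by
  simpa [← MonoidHom.range_eq_map] using h.map S.subtype

theorem dw (fc : FC G) (d : ℕ) : ∀ S : Subgroup G, der S d = ⊥ →
    (∀ h ∈ S, ∃ r, ∀ g ∈ S, (cm h)^[r] g = 1) → Nil S := by
  induction d with
  | zero => intro S h _; exact ⟨0, h⟩
  | succ d ih =>
    intro S h he
    have le := commutator_le_self S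
    refine nil_top (dw_step (fc.sub S) (nil_of_map S.subtype_injective ?_) fun h => ?_)
    · rw [map_commutator, ← MonoidHom.range_eq_map, subtype_range]
      exact ih _ h fun a ha => (he a (le ha)).imp fun r hr g hg => hr g (le hg)
    · exact (he h h.2).imp fun r hr g => S.subtype_injective
        ((map_cm S.subtype h g r).trans (hr g g.2))

def gam (A : Subgroup G) : ℕ → Subgroup G
  | 0 => ⊤
  | n + 1 => ⁅gam A n, A⁆

instance gam_normal (A : Subgroup G) [A.Normal] (n : ℕ) : (gam A n).Normal := by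
  induction n with
  | zero => exact inferInstanceAs (⊤ : Subgroup G).Normal
  | succ n ih => exact Subgroup.commutator_normal _ _

theorem gam_bot {A : Subgroup G} [A.Normal] {c n : ℕ} (h : A.lowerCentralSeries c = ⊥)
    (e : c + 1 ≤ n) : gam A n = ⊥ := by
  have h1 : ∀ i, gam A (i + 1) ≤ A.lowerCentralSeries i := fun i => by
    induction i with
    | zero => exact commutator_le_right _ _
    | succ i ih => exact commutator_mono ih le_rfl
  obtain ⟨k, rfl⟩ := Nat.exists_eq_add_of_le' e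
  exact le_bot_iff.1 ((h1 (k + c)).trans ((A.lowerCentralSeries_antitone (by omega)).trans h.le))

theorem fit0 {A B : Subgroup G} [A.Normal] [B.Normal] (h : A ⊔ B = ⊤) (ha : Nil A) (hb : Nil B) :
    Nil (⊤ : Subgroup G) := by
  obtain ⟨a, ha⟩ := ha
  obtain ⟨b, hb⟩ := hb
  have : ∀ s i j, a + b + 1 ≤ s + i + j → it (gam A i ⊓ gam B j) s ≤ ⊥ := by
    intro s
    induction s with
    | zero =>
      intro i j e
      by_cases hi : a + 1 ≤ i
      · exact inf_le_left.trans (gam_bot ha hi).le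
      · exact inf_le_right.trans (gam_bot hb (by omega)).le
    | succ s ih =>
      intro i j e
      have : ⁅gam A i ⊓ gam B j, (⊤ : Subgroup G)⁆ ≤
          (gam A (i + 1) ⊓ gam B j) ⊔ (gam A i ⊓ gam B (j + 1)) := by
        rw [← h]
        refine comm_sup le_normalizer_of_normal le_normalizer_of_normal
          (le_sup_of_le_left (le_inf ?_ ?_)) (le_sup_of_le_right (le_inf ?_ ?_))
        · exact commutator_mono inf_le_left le_rfl
        · exact (commutator_le_left _ _).trans inf_le_right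
        · exact (commutator_le_left _ _).trans inf_le_left
        · exact commutator_mono inf_le_right le_rfl
      exact (it_mono s this).trans ((it_sup s _ _).trans
        (sup_le (ih _ _ (by omega)) (ih _ _ (by omega))))
  refine ⟨a + b + 1, le_bot_iff.1 ?_⟩
  rw [← it_top]
  exact (it_mono _ (le_inf le_rfl le_rfl)).trans (this _ 0 0 le_rfl)

theorem fit {A B : Subgroup G} (h1 : B ≤ normalizer (A : Set G)) (h2 : A ≤ normalizer (B : Set G))
    (ha : Nil A) (hb : Nil B) : Nil (A ⊔ B) := by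
  have := (normal_subgroupOf_iff_le_normalizer (le_sup_left : A ≤ A ⊔ B)).2
    (sup_le le_normalizer h1)
  have := (normal_subgroupOf_iff_le_normalizer (le_sup_right : B ≤ A ⊔ B)).2
    (sup_le h2 le_normalizer)
  have inj := (A ⊔ B).subtype_injective
  refine nil_top (fit0 (A := A.subgroupOf _) (B := B.subgroupOf _) ?_ (nil_of_map inj ?_)
    (nil_of_map inj ?_))
  · rw [← subgroupOf_sup le_sup_left le_sup_right, subgroupOf_self]
  · rwa [map_subgroupOf_eq_of_le le_sup_left]
  · rwa [map_subgroupOf_eq_of_le le_sup_right]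

def Fit (K : Subgroup G) : Subgroup G where
  carrier := {h | ∃ L, Nil L ∧ L ≤ K ∧ K ≤ normalizer (L : Set G) ∧ h ∈ L}
  one_mem' := ⟨⊥, ⟨0, rfl⟩, bot_le, le_normalizer_of_normal, one_mem _⟩
  mul_mem' := by
    rintro a b ⟨L, l1, l2, l3, l4⟩ ⟨M, m1, m2, m3, m4⟩
    exact ⟨L ⊔ M, fit (m2.trans l3) (l2.trans m3) l1 m1, sup_le l2 m2,
      (le_inf l3 m3).trans (normalizer_inf_normalizer_le_normalizer_sup L M),
      mul_mem (mem_sup_left l4) (mem_sup_right m4)⟩
  inv_mem' := by
    rintro a ⟨L, l1, l2, l3, l4⟩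
    exact ⟨L, l1, l2, l3, inv_mem l4⟩

theorem fit_le (K : Subgroup G) : Fit K ≤ K := fun _ ⟨_, _, h, _, h'⟩ => h h'

theorem fit_norm (K : Subgroup G) : normalizer (K : Set G) ≤ normalizer (Fit K : Set G) := by
  refine le_normalizer_iff.2 fun g hg h ⟨L, l1, l2, l3, l4⟩ => ?_
  have e := mem_normalizer_iff_map_conj_eq.1 hg
  exact ⟨L.map (MulAut.conj g : G →* G), l1.map _, e ▸ map_mono l2,
    e.ge.trans ((map_mono l3).trans (le_normalizer_map _)), mem_map_of_mem _ l4⟩

theorem fit_nil (fc : FC G) {K : Subgroup G} {d : ℕ} (h : der K d = ⊥) : Nil (Fit K) := by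
  refine dw fc d _ (le_bot_iff.1 ((der_mono d (fit_le K)).trans h.le))
    fun h ⟨L, ⟨c, hc⟩, _, l3, l4⟩ => ⟨c + 1, fun g hg => ?_⟩
  have : cm h g ∈ L :=
    mul_mem ((mem_normalizer_iff''.1 (l3 (fit_le K hg)) _).1 (inv_mem l4)) l4
  exact mem_bot.1 (hc ▸ cm_lcs this l4 c)

theorem fit_up (fc : FC G) {K K' : Subgroup G} {d : ℕ} (h : der K d = ⊥) (h1 : K ≤ K')
    (h2 : K' ≤ normalizer (K : Set G)) : Fit K ≤ Fit K' := fun _ hb =>
  ⟨Fit K, fit_nil fc h, (fit_le K).trans h1, h2.trans (fit_norm K), hb⟩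

theorem fit_ch (fc : FC G) {N0 : Subgroup G} {d0 r : ℕ} (h0 : der N0 d0 = ⊥) {b : G}
    (hb : b ∈ N0) (he : ∀ g, (cm b)^[r] g = 1) (d : ℕ) : ∀ N : Subgroup G, der N d = ⊥ → N ≤ N0 →
      b ∈ normalizer (N : Set G) → b ∈ Fit (zpowers b ⊔ N) := by
  induction d with
  | zero =>
    intro N h _ _
    rw [show N = ⊥ from h, sup_bot_eq]
    exact ⟨_, nil_ab (commutator_self_eq_bot_iff.2 inferInstance), le_rfl, le_normalizer,
      mem_zpowers b⟩
  | succ d ih =>
    intro N h hN hx
    have ok : Ok N b ⁅N, N⁆ := ⟨le_rfl, commutator_le_self N, hx, norm_comm hx hx⟩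
    have : ∀ n, b ∈ Fit (zpowers b ⊔ (ch ok n).1) := fun n => by
      induction n with
      | zero => exact ih _ h (ok.l.trans hN) ok.a
      | succ n ih' =>
        exact fit_up fc (le_bot_iff.1 ((der_mono d0 (sup_le (zpowers_le.2 hb)
          ((ch ok n).2.l.trans hN))).trans h0.le))
          (sup_le_sup_left (ch_mono ok (Nat.le_succ n)) _) (ch_norm ok n) ih'
    rw [← le_antisymm (ch ok r).2.l fun g hg => ch_mem ok r g hg (he g ▸ one_mem _)]
    exact this r

theorem final (fc : FC G) (mc : MC G) {a : G} {m : ℕ} (h : ∀ x, (cm x)^[m] a = 1) :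
    ∃ n, ∀ x, (zpowers x ⊔ normalClosure {a}).lowerCentralSeries n = ⊥ := by
  have hc : ∀ x g, (cm x)^[m] (g * a * g⁻¹) = 1 := fun x g => by rw [cm_conj, h]; simp
  obtain ⟨d, hd⟩ := solv mc ((ncl mc (fun x => ⟨m, h x⟩) 1).mono
    (SetLike.coe_subset_coe.2 le_sup_right))
  have ha : a⁻¹ ∈ normalClosure {a} := inv_mem (subset_normalClosure rfl)
  have he : ∀ g, (cm a⁻¹)^[m + 2] g = 1 := fun g => by
    have : cm a⁻¹ (cm a⁻¹ g) = a * cm a⁻¹ (g⁻¹ * a * g⁻¹⁻¹) * a⁻¹ := by simp only [cm]; group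
    rw [Function.iterate_succ_apply, Function.iterate_succ_apply, this, cm_conj,
      show a⁻¹ * a⁻¹ * a = a⁻¹ by group, ← Function.iterate_succ_apply,
      cm_ge (hc _ _) (Nat.le_succ m)]
    simp
  have h1 := fit_ch fc hd ha he d _ hd le_rfl (le_normalizer_of_normal (K := ⊤) trivial)
  rw [sup_eq_right.2 (zpowers_le.2 ha)] at h1
  have : (Fit (normalClosure {a})).Normal := normalizer_eq_top_iff.1
    (top_le_iff.1 (le_normalizer_of_normal.trans (fit_norm _)))
  obtain ⟨c, h2⟩ := (fit_nil fc hd).mono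
    (normalClosure_le_normal (Set.singleton_subset_iff.2 (inv_mem_iff.1 h1)))
  obtain ⟨n, hn⟩ := cyc_bd.{u} m c
  refine ⟨n, fun x => ?_⟩
  rw [sup_comm]
  refine hn G (Group.conjugatesOfSet {a}) x
    (le_normalizer_of_normal (H := normalClosure {a}) (K := ⊤) trivial) (fun u hu => ?_) h2
  obtain ⟨b, rfl, hb⟩ := Group.mem_conjugatesOfSet_iff.1 hu
  obtain ⟨g, rfl⟩ := isConj_iff.1 hb
  exact hc x g

end Pool.Agent.H.MP_3f2ebd_al
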